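import Pool.Agent.Helper87_UT.Stmts

/-!
# Squad UT, module RLB: random labels of the samples against random labellings
-/

set_option autoImplicit false

namespace Pool.Agent.UT.H65

open Finset

theorem card_prod {A Y : Type} [Fintype A] [Fintype Y] (Q : A → Y → Prop)
    [DecidablePred fun w : A × Y => Q w.1 w.2] [∀ y, DecidablePred fun a => Q a y] :
    (univ.filter fun w : A × Y => Q w.1 w.2).card =
      ∑ y : Y, (univ.filter fun a : A => Q a y).card := by
  classical
  rw [card_filter, Fintype.sum_prod_type_right]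
  refine sum_congr rfl fun y _ => ?_
  rw [card_filter]

theorem rlb (hInj : InjStmt) (hRst : RstStmt) : RlbStmt := by
  intro Ω _ k N n P R c hk hn hPR
  classical
  intro hP
  have hkR : (0 : ℝ) < k := by exact_mod_cast hk
  have hnR : (0 : ℝ) < n := by exact_mod_cast hn
  have hkn : (0 : ℝ) < (k : ℝ) ^ n := by positivity
  -- the counts for fixed samples
  let p : (Fin N → Fin n) × Ω → ℕ := fun y =>
    (univ.filter fun lab : Fin n → Fin k => P lab y.1 y.2).card
  let r : (Fin N → Fin n) × Ω → ℕ := fun y =>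
    (univ.filter fun l : Fin N → Fin k => R l y.1 y.2).card
  have e1 : (univ.filter fun w : (Fin n → Fin k) × (Fin N → Fin n) × Ω =>
      P w.1 w.2.1 w.2.2).card = ∑ y, p y := by
    have := card_prod (A := Fin n → Fin k) (Y := (Fin N → Fin n) × Ω) (fun a y => P a y.1 y.2)
    convert this
  have e2 : (univ.filter fun w : (Fin N → Fin k) × (Fin N → Fin n) × Ω =>
      R w.1 w.2.1 w.2.2).card = ∑ y, r y := by
    have := card_prod (A := Fin N → Fin k) (Y := (Fin N → Fin n) × Ω) (fun a y => R a y.1 y.2)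
    convert this
  have hP' : (∑ y, (p y : ℝ)) ≤ c * ((k : ℝ) ^ n * ((n : ℝ) ^ N * Fintype.card Ω)) := by
    have h := hP
    rw [e1] at h
    push_cast at h
    exact h
  -- injective samples
  have hinj : ∀ y : (Fin N → Fin n) × Ω, Function.Injective y.1 →
      (r y : ℝ) * (k : ℝ) ^ n ≤ (p y : ℝ) * (k : ℝ) ^ N := by
    intro y hy
    have h1 := hRst (Fin N) (Fin n) (Fin k) y.1 (fun l => R l y.1 y.2) hy
    have h2 : (univ.filter fun lab : Fin n → Fin k => R (fun i => lab (y.1 i)) y.1 y.2).card ≤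
        p y := by
      refine card_le_card ?_
      intro lab hlab
      simp only [mem_filter, mem_univ, true_and] at hlab ⊢
      exact hPR lab y.1 y.2 hy hlab
    have h3 : r y * k ^ n ≤ p y * k ^ N := by
      have h4 : (univ.filter fun lab : Fin n → Fin k => R (fun i => lab (y.1 i)) y.1 y.2).card *
          k ^ N = r y * k ^ n := by
        have h5 := h1
        simp only [Fintype.card_fin] at h5
        convert h5
      rw [← h4]
      exact Nat.mul_le_mul_right _ h2
    exact_mod_cast h3
  -- other samples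
  have hnon : ∀ y : (Fin N → Fin n) × Ω, (r y : ℝ) ≤ (k : ℝ) ^ N := by
    intro y
    have h1 : r y ≤ (univ : Finset (Fin N → Fin k)).card := card_le_card (filter_subset _ _)
    have h2 : (univ : Finset (Fin N → Fin k)).card = k ^ N := by
      rw [card_univ, Fintype.card_fun, Fintype.card_fin, Fintype.card_fin]
    rw [h2] at h1
    exact_mod_cast h1
  have hcard : ((univ.filter fun y : (Fin N → Fin n) × Ω => ¬ Function.Injective y.1).card : ℝ) =
      ((univ.filter fun x : Fin N → Fin n => ¬ Function.Injective x).card : ℝ) *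
        Fintype.card Ω := by
    have h1 : (univ.filter fun y : (Fin N → Fin n) × Ω => ¬ Function.Injective y.1) =
        (univ.filter fun x : Fin N → Fin n => ¬ Function.Injective x) ×ˢ (univ : Finset Ω) := by
      ext y
      simp
    rw [h1, card_product, card_univ]
    push_cast
    ring
  have hno : (n : ℝ) * ((univ.filter fun x : Fin N → Fin n =>
      ¬ Function.Injective x).card : ℝ) ≤ (N : ℝ) ^ 2 * (n : ℝ) ^ N := by
    have h1 := hInj n N
    convert h1
  have hno2 : ((univ.filter fun x : Fin N → Fin n =>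
      ¬ Function.Injective x).card : ℝ) ≤ (N : ℝ) ^ 2 / n * (n : ℝ) ^ N := by
    rw [div_mul_eq_mul_div, le_div_iff₀ hnR]
    linarith
  have hΩ : (0 : ℝ) ≤ Fintype.card Ω := Nat.cast_nonneg _
  -- splitting
  have hsplit : (∑ y, (r y : ℝ)) =
      (∑ y ∈ univ.filter (fun y : (Fin N → Fin n) × Ω => Function.Injective y.1), (r y : ℝ)) +
      ∑ y ∈ univ.filter (fun y : (Fin N → Fin n) × Ω => ¬ Function.Injective y.1), (r y : ℝ) :=
    (sum_filter_add_sum_filter_not _ _ _).symm
  have hA : (∑ y ∈ univ.filter (fun y : (Fin N → Fin n) × Ω => Function.Injective y.1),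
      (r y : ℝ)) ≤ c * ((k : ℝ) ^ N * ((n : ℝ) ^ N * Fintype.card Ω)) := by
    have h1 : (∑ y ∈ univ.filter (fun y : (Fin N → Fin n) × Ω => Function.Injective y.1),
        (r y : ℝ)) * (k : ℝ) ^ n ≤ (∑ y, (p y : ℝ)) * (k : ℝ) ^ N := by
      rw [sum_mul, sum_mul]
      calc (∑ y ∈ univ.filter (fun y : (Fin N → Fin n) × Ω => Function.Injective y.1),
            (r y : ℝ) * (k : ℝ) ^ n) ≤
            ∑ y ∈ univ.filter (fun y : (Fin N → Fin n) × Ω => Function.Injective y.1),
              (p y : ℝ) * (k : ℝ) ^ N := by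
            refine sum_le_sum fun y hy => ?_
            exact hinj y (mem_filter.mp hy).2
        _ ≤ ∑ y, (p y : ℝ) * (k : ℝ) ^ N := by
            refine sum_le_sum_of_subset_of_nonneg (filter_subset _ _) ?_
            intro y _ _
            positivity
    have h2 : (∑ y, (p y : ℝ)) * (k : ℝ) ^ N ≤
        c * ((k : ℝ) ^ n * ((n : ℝ) ^ N * Fintype.card Ω)) * (k : ℝ) ^ N :=
      mul_le_mul_of_nonneg_right hP' (by positivity)
    have h3 := h1.trans h2
    have h4 : c * ((k : ℝ) ^ n * ((n : ℝ) ^ N * Fintype.card Ω)) * (k : ℝ) ^ N =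
        (c * ((k : ℝ) ^ N * ((n : ℝ) ^ N * Fintype.card Ω))) * (k : ℝ) ^ n := by ring
    rw [h4] at h3
    exact le_of_mul_le_mul_right h3 hkn
  have hB : (∑ y ∈ univ.filter (fun y : (Fin N → Fin n) × Ω => ¬ Function.Injective y.1),
      (r y : ℝ)) ≤ (N : ℝ) ^ 2 / n * ((k : ℝ) ^ N * ((n : ℝ) ^ N * Fintype.card Ω)) := by
    calc (∑ y ∈ univ.filter (fun y : (Fin N → Fin n) × Ω => ¬ Function.Injective y.1),
          (r y : ℝ)) ≤
          ∑ y ∈ univ.filter (fun y : (Fin N → Fin n) × Ω => ¬ Function.Injective y.1),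
            (k : ℝ) ^ N := sum_le_sum fun y _ => hnon y
      _ = ((univ.filter fun x : Fin N → Fin n => ¬ Function.Injective x).card : ℝ) *
            Fintype.card Ω * (k : ℝ) ^ N := by
          rw [sum_const, nsmul_eq_mul, hcard]
      _ ≤ (N : ℝ) ^ 2 / n * (n : ℝ) ^ N * Fintype.card Ω * (k : ℝ) ^ N := by
          refine mul_le_mul_of_nonneg_right ?_ (by positivity)
          exact mul_le_mul_of_nonneg_right hno2 hΩ
      _ = (N : ℝ) ^ 2 / n * ((k : ℝ) ^ N * ((n : ℝ) ^ N * Fintype.card Ω)) := by ring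
  rw [e2]
  push_cast
  rw [hsplit, add_mul]
  exact add_le_add hA hB

end Pool.Agent.UT.H65
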